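import Pool.Agent.H525.EX.Stm4
import Pool.Agent.H297.EX.C2

/-!
# The contiguity relation for `h0`, `ε = -1` (for helper525)
-/

set_option autoImplicit false

namespace Pool.Agent.H767.EX

open Pool.Agent.H525.EX Pool.Agent.H297.EX

/-- **C3.** -/
theorem t_c3 : Pool.Agent.H525.EX.S_c3 := by
  intro hom s P u v u' v' hP h h' n e
  have hε : (-1 : ℝ) ≠ 0 := by norm_num
  obtain ⟨c, hc⟩ : ∃ c : ℝ, c = (-1) ^ s * P := ⟨_, rfl⟩
  have hc0 : c ≠ 0 := by
    rw [hc]
    exact mul_ne_zero (pow_ne_zero _ hε) hP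
  have hz := (hom (s + 1) (-1) P _ _ (pre h.pre h'.pre) (fun n => by
    refine sm_E0 (by omega) h.pre.us (up_u h.pre hε) h.pre.vs (up_v h.pre hε) h'.pre.us
      (up_u h'.pre hε) h.N h'.N n) (n + (2 * s + 1) + 1) (e + (2 * s + 1))).1
  have hc2 : c ^ 2 = P ^ 2 := by
    rw [hc, mul_pow, ← pow_mul, mul_comm s 2, pow_mul]
    norm_num
  rw [← hc] at hz ⊢
  unfold E0 at hz
  rw [hc2] at hz
  apply mul_left_cancel₀ hc0
  rw [mul_zero]
  linear_combination (norm := ring_nf) hz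

end Pool.Agent.H767.EX
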